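import Pool.Agent.Q120.ME.General
import Pool.Agent.Erdos456.Mertens

/-!
# The repunit exponents: all random sets of primes near the model

The model contains each prime `p` independently with probability `rate p = min (1 / 2) (e ^ γ log p / (p log 10))`, the expected density of the
exponents of the repunit primes. For any random set `A` (no independence is assumed) `D μ A x` is the relative entropy (nats) of the law of the
set of the primes below `x` in `A` with respect to the model.
-/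

set_option autoImplicit false

namespace Pool.Agent.Q83.RI

open Finset MeasureTheory Filter Pool.Agent.Q120.ET Pool.Agent.Q120.ME
open scoped Topology

/-- The constant `e ^ γ / log 10`. -/
noncomputable def cR : ℝ := Real.exp Real.eulerMascheroniConstant / Real.log 10

/-- The probabilities of the model, at most `1 / 2`. -/
noncomputable def rate (n : ℕ) : ℝ := min (1 / 2) (cR * Real.log n / n)

/-- The number of the primes below `x` in `S`. -/
noncomputable def M (S : Set ℕ) (x : ℕ) : ℕ := cnt {n | n.Prime} S x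

/-- The relative entropy (nats) of the law of the set of the primes below `x` in `A`, with respect to the model. -/
noncomputable def D {Ω : Type*} [MeasurableSpace Ω] (μ : Measure Ω) (A : Ω → Set ℕ) (x : ℕ) : ℝ := relEnt rate μ A (ind {n | n.Prime} x)

/-- The class `δ`: `D(x) ≤ (δ + o(1)) log x`. -/
def Cls (δ : ℝ) {Ω : Type*} [MeasurableSpace Ω] (μ : Measure Ω) (A : Ω → Set ℕ) : Prop :=
  IsRandomSet A ∧ ∀ ε : ℝ, 0 < ε → ∀ᶠ x : ℕ in atTop, D μ A x ≤ (δ + ε) * Real.log x

theorem cR_pos : 0 < cR := by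
  unfold cR
  have := Real.log_pos (show (1 : ℝ) < 10 by norm_num)
  positivity

lemma tend0 : Tendsto (fun n : ℕ => cR * Real.log n / n) atTop (𝓝 0) := by
  have h1 : Tendsto (fun x : ℝ => Real.log x / x) atTop (𝓝 0) :=
    Real.isLittleO_log_id_atTop.tendsto_div_nhds_zero
  have h2 := (h1.comp tendsto_natCast_atTop_atTop).const_mul cR
  rw [mul_zero] at h2
  refine h2.congr (fun n => ?_)
  simp only [Function.comp_apply]
  ring

lemma rate_eq (n : ℕ) : rate n = min (1 / 2) (cR * Real.log n / n) := rfl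

lemma mass_eq (f : ℕ → ℝ) (x : ℕ) :
    mass {n | n.Prime} f x = ∑ n ∈ (range x).filter Nat.Prime, f n := by
  unfold mass
  refine Finset.sum_congr ?_ (fun _ _ => rfl)
  ext n
  simp [ind]

lemma mass_near : ∃ C : ℝ, ∀ x : ℕ, 2 ≤ x →
    |mass {n | n.Prime} rate x - cR * Real.log x| ≤ C := by
  obtain ⟨C, hC⟩ := Pool.Agent.Erdos456.Mert.mertens_log
  obtain ⟨n0, hn0⟩ := eventually_atTop.1 (tend0.eventually (gt_mem_nhds (show (0 : ℝ) < 1 / 2 by norm_num)))
  refine ⟨(∑ n ∈ range n0, |rate n - cR * Real.log n / n|) + cR * (C + 1), fun x hx => ?_⟩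
  rw [mass_eq]
  set s := (range x).filter Nat.Prime with hs
  have h1 : |∑ n ∈ s, rate n - cR * ∑ n ∈ s, Real.log n / n| ≤
      ∑ n ∈ range n0, |rate n - cR * Real.log n / n| := by
    have e1 : ∑ n ∈ s, rate n - cR * ∑ n ∈ s, Real.log n / n =
        ∑ n ∈ s, (rate n - cR * Real.log n / n) := by
      rw [Finset.sum_sub_distrib, Finset.mul_sum]
      congr 1
      refine Finset.sum_congr rfl (fun n _ => by ring)
    rw [e1]
    refine (Finset.abs_sum_le_sum_abs _ _).trans ?_
    rw [← Finset.sum_filter_of_ne (p := fun n => n < n0)]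
    · refine Finset.sum_le_sum_of_subset_of_nonneg ?_ (fun _ _ _ => abs_nonneg _)
      intro n hn
      exact mem_range.2 (mem_filter.1 hn).2
    · intro n _ hne
      by_contra hlt
      apply hne
      have := hn0 n (not_lt.1 hlt)
      rw [rate_eq, min_eq_right this.le, sub_self, abs_zero]
  have h2 : |∑ n ∈ s, Real.log n / n - Real.log x| ≤ C + 1 := by
    have e2 : s = (Icc 1 (x - 1)).filter Nat.Prime := by
      ext n
      rw [hs, mem_filter, mem_filter, mem_range, mem_Icc]
      constructor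
      · rintro ⟨h, hp⟩
        exact ⟨⟨hp.one_lt.le, by omega⟩, hp⟩
      · rintro ⟨⟨_, h⟩, hp⟩
        exact ⟨by omega, hp⟩
    have h3 := hC (x - 1) (by omega)
    rw [← e2] at h3
    have h4 : |Real.log ((x - 1 : ℕ) : ℝ) - Real.log x| ≤ 1 := by
      have hx1 : (0 : ℝ) < ((x - 1 : ℕ) : ℝ) := by
        have : 0 < x - 1 := by omega
        exact_mod_cast this
      have hx2 : (0 : ℝ) < x := by
        have : 0 < x := by omega
        exact_mod_cast this
      have h5 : Real.log ((x - 1 : ℕ) : ℝ) ≤ Real.log x :=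
        Real.log_le_log hx1 (by exact_mod_cast (Nat.sub_le x 1))
      have h6 : Real.log x ≤ Real.log ((x - 1 : ℕ) : ℝ) + Real.log 2 := by
        rw [← Real.log_mul hx1.ne' (by norm_num)]
        refine Real.log_le_log hx2 ?_
        have : x ≤ (x - 1) * 2 := by omega
        exact_mod_cast this
      have h7 : Real.log 2 < 1 := by
        have := Real.log_two_lt_d9
        linarith
      rw [abs_le]
      constructor <;> linarith
    calc |∑ n ∈ s, Real.log n / n - Real.log x|
        = |(∑ n ∈ s, Real.log n / n - Real.log ((x - 1 : ℕ) : ℝ)) +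
          (Real.log ((x - 1 : ℕ) : ℝ) - Real.log x)| := by ring_nf
      _ ≤ _ := abs_add_le _ _
      _ ≤ C + 1 := add_le_add h3 h4
  calc |∑ n ∈ s, rate n - cR * Real.log x|
      = |(∑ n ∈ s, rate n - cR * ∑ n ∈ s, Real.log n / n) +
        cR * (∑ n ∈ s, Real.log n / n - Real.log x)| := by ring_nf
    _ ≤ _ := abs_add_le _ _
    _ ≤ _ := by
      rw [abs_mul, abs_of_pos cR_pos]
      exact add_le_add h1 (mul_le_mul_of_nonneg_left h2 cR_pos.le)

lemma log_tend : Tendsto (fun x : ℕ => Real.log x) atTop atTop :=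
  Real.tendsto_log_atTop.comp tendsto_natCast_atTop_atTop

lemma mass_lim : Tendsto (fun x : ℕ => mass {n | n.Prime} rate x / Real.log x) atTop (𝓝 cR) := by
  obtain ⟨C, hC⟩ := mass_near
  have h1 : Tendsto (fun x : ℕ => (mass {n | n.Prime} rate x - cR * Real.log x) / Real.log x)
      atTop (𝓝 0) := by
    refine squeeze_zero_norm' (a := fun x : ℕ => C / Real.log x) ?_ ?_
    · filter_upwards [eventually_ge_atTop 2] with x hx
      have hl : 0 < Real.log x := Real.log_pos (by exact_mod_cast hx)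
      rw [Real.norm_eq_abs, abs_div, abs_of_pos hl]
      exact div_le_div_of_nonneg_right (hC x hx) hl.le
    · exact tendsto_const_nhds.div_atTop log_tend
  have h2 := h1.add_const cR
  rw [zero_add] at h2
  refine h2.congr' ?_
  filter_upwards [eventually_ge_atTop 2] with x hx
  have hl : 0 < Real.log x := Real.log_pos (by exact_mod_cast hx)
  field_simp
  ring

lemma rates : Rates {n | n.Prime} rate where
  pos := by
    intro n hn
    have hn : n.Prime := hn
    rw [rate_eq]
    refine lt_min (by norm_num) ?_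
    have h1 : 0 < Real.log n := Real.log_pos (by exact_mod_cast hn.one_lt)
    have h2 : (0 : ℝ) < n := by exact_mod_cast hn.pos
    have := cR_pos
    positivity
  lt_one := by
    intro n _
    rw [rate_eq]
    exact (min_le_left _ _).trans_lt (by norm_num)
  small := by
    intro ε hε
    filter_upwards [tend0.eventually (gt_mem_nhds hε)] with n hn _
    rw [rate_eq]
    exact (min_le_right _ _).trans_lt hn
  div := by
    have h1 := mass_lim.pos_mul_atTop cR_pos log_tend
    refine h1.congr' ?_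
    filter_upwards [eventually_ge_atTop 2] with x hx
    have hl : 0 < Real.log x := Real.log_pos (by exact_mod_cast hx)
    field_simp

theorem log_tendsto : Tendsto (fun x : ℕ => Real.log x) atTop atTop := Real.tendsto_log_atTop.comp tendsto_natCast_atTop_atTop

/-- `mass` and `log`. -/
theorem mass_bounds (J : MEJobs) {η : ℝ} (hη : 0 < η) : ∀ᶠ x : ℕ in atTop,
    (1 - η) * (cR * Real.log x) ≤ mass {n | n.Prime} rate x ∧ mass {n | n.Prime} rate x ≤ (1 + η) * (cR * Real.log x) := by
  have h1 := mass_lim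
  have hc := cR_pos
  filter_upwards [h1.eventually (eventually_gt_nhds (show (1 - η) * cR < cR by nlinarith)),
    h1.eventually (eventually_lt_nhds (show cR < (1 + η) * cR by nlinarith)), log_tendsto.eventually_gt_atTop 0] with x h2 h3 h4
  rw [lt_div_iff₀ h4] at h2
  rw [div_lt_iff₀ h4] at h3
  constructor <;> nlinarith

/-- The limits with respect to `mass` and to `log`. -/
theorem tendsto_iff (J : MEJobs) (f : ℕ → ℝ) (l : ℝ) :
    Tendsto (fun x : ℕ => f x / mass {n | n.Prime} rate x) atTop (𝓝 l) ↔ Tendsto (fun x : ℕ => f x / Real.log x) atTop (𝓝 (cR * l)) := by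
  have h1 := mass_lim
  have hc := cR_pos
  have h2 : ∀ᶠ x : ℕ in atTop, 0 < mass {n | n.Prime} rate x := rates.div.eventually_gt_atTop 0
  have h3 : ∀ᶠ x : ℕ in atTop, 0 < Real.log x := log_tendsto.eventually_gt_atTop 0
  constructor
  · intro h
    refine (h1.mul h).congr' ?_
    filter_upwards [h2, h3] with x h4 h5
    field_simp
  · intro h
    have h4 : Tendsto (fun x : ℕ => f x / Real.log x * (mass {n | n.Prime} rate x / Real.log x)⁻¹) atTop (𝓝 (cR * l * cR⁻¹)) :=
      h.mul (h1.inv₀ hc.ne')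
    rw [show cR * l * cR⁻¹ = l by field_simp] at h4
    refine h4.congr' ?_
    filter_upwards [h2, h3] with x h4 h5
    field_simp

/-- The classes with respect to `mass` and to `log`. -/
theorem cls_iff (J : MEJobs) {δ : ℝ} (hδ : 0 ≤ δ) {f : ℕ → ℝ} :
    (∀ ε : ℝ, 0 < ε → ∀ᶠ x : ℕ in atTop, f x ≤ (δ / cR + ε) * mass {n | n.Prime} rate x) ↔
      ∀ ε : ℝ, 0 < ε → ∀ᶠ x : ℕ in atTop, f x ≤ (δ + ε) * Real.log x := by
  have hc := cR_pos
  constructor
  · intro h ε hε
    obtain ⟨ε', hε'⟩ : ∃ ε' : ℝ, ε' = ε / (2 * cR) := ⟨_, rfl⟩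
    have h1 : 0 < ε' := by
      rw [hε']
      positivity
    obtain ⟨η, hη⟩ : ∃ η : ℝ, η = ε / (2 * (δ + ε)) := ⟨_, rfl⟩
    have hδε : 0 < δ + ε := by linarith
    have h2 : 0 < η := by
      rw [hη]
      positivity
    filter_upwards [h ε' h1, mass_bounds J h2, log_tendsto.eventually_gt_atTop 0] with x h3 h4 h5
    refine h3.trans ?_
    have h6 : 0 ≤ δ / cR + ε' := by positivity
    refine (mul_le_mul_of_nonneg_left h4.2 h6).trans ?_
    have h7 : (δ / cR + ε') * ((1 + η) * (cR * Real.log x)) = ((δ + ε / 2) * (1 + η)) * Real.log x := by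
      rw [hε']
      field_simp
    rw [h7]
    apply mul_le_mul_of_nonneg_right _ h5.le
    have h8 : (δ + ε / 2) * η ≤ ε / 2 := by
      rw [hη, mul_div_assoc', div_le_iff₀ (by positivity)]
      nlinarith
    linarith
  · intro h ε hε
    obtain ⟨ε', hε'⟩ : ∃ ε' : ℝ, ε' = ε * cR / 2 := ⟨_, rfl⟩
    have h1 : 0 < ε' := by
      rw [hε']
      positivity
    have hd : 0 < δ / cR + ε := by positivity
    obtain ⟨η, hη⟩ : ∃ η : ℝ, η = ε / 2 / (δ / cR + ε) := ⟨_, rfl⟩
    have h2 : 0 < η := by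
      rw [hη]
      positivity
    filter_upwards [h ε' h1, mass_bounds J h2, log_tendsto.eventually_gt_atTop 0] with x h3 h4 h5
    refine h3.trans ?_
    refine le_trans ?_ (mul_le_mul_of_nonneg_left h4.1 hd.le)
    have h7 : (δ / cR + ε) * ((1 - η) * (cR * Real.log x)) = ((δ / cR + ε) - (δ / cR + ε) * η) * cR * Real.log x := by ring
    rw [h7]
    apply mul_le_mul_of_nonneg_right _ h5.le
    have h8 : (δ / cR + ε) * η = ε / 2 := by
      rw [hη]
      field_simp
    rw [h8, hε']
    have h9 : (δ / cR + ε - ε / 2) * cR = δ + ε * cR / 2 := by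
      field_simp
      ring
    rw [h9]

/-- The conditions of convergence. -/
theorem conv_iff (J : MEJobs) {d : ℕ → ℝ} (hd : ∀ n, 0 ≤ d n) :
    Conv {n | n.Prime} rate d ↔ Summable (fun n : ℕ => if n.Prime then d n / (n * Real.log n) else 0) := by
  classical
  have hc := cR_pos
  have hmb := mass_bounds J (show (0 : ℝ) < 1 / 2 by norm_num)
  have hw : ∀ᶠ n : ℕ in atTop, rate n = cR * Real.log n / n := by
    have h1 : Tendsto (fun n : ℕ => cR * (Real.log n / n)) atTop (𝓝 (cR * 0)) := by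
      have h2 : Tendsto (fun x : ℝ => Real.log x / x) atTop (𝓝 0) := by
        have := Real.tendsto_pow_log_div_mul_add_atTop 1 0 1 one_ne_zero
        simpa using this
      exact (h2.comp tendsto_natCast_atTop_atTop).const_mul cR
    rw [mul_zero] at h1
    filter_upwards [h1.eventually (eventually_lt_nhds (show (0 : ℝ) < 1 / 2 by norm_num))] with n hn
    unfold rate
    rw [min_eq_right]
    · rw [mul_div_assoc]
      exact hn.le
  unfold Conv
  have key : ∀ᶠ n : ℕ in atTop, rate n * d n / mass {n | n.Prime} rate n ^ 2 ≤ 4 / cR * (d n / (n * Real.log n)) ∧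
      d n / (n * Real.log n) ≤ 9 * cR / 4 * (rate n * d n / mass {n | n.Prime} rate n ^ 2) := by
    filter_upwards [hmb, hw, log_tendsto.eventually_gt_atTop 0, eventually_gt_atTop 0] with n h1 h2 h3 h4
    have hn : (0 : ℝ) < n := by exact_mod_cast h4
    have hm : 0 < mass {n | n.Prime} rate n := by
      have : 0 < cR * Real.log n := by positivity
      nlinarith [h1.1]
    have h5 := hd n
    rw [h2]
    have h6 : (1 / 2 * (cR * Real.log n)) ^ 2 ≤ mass {n | n.Prime} rate n ^ 2 := by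
      apply pow_le_pow_left₀ (by positivity)
      linarith [h1.1]
    have h7 : mass {n | n.Prime} rate n ^ 2 ≤ (3 / 2 * (cR * Real.log n)) ^ 2 := by
      apply pow_le_pow_left₀ hm.le
      linarith [h1.2]
    constructor
    · calc cR * Real.log n / n * d n / mass {n | n.Prime} rate n ^ 2
          ≤ cR * Real.log n / n * d n / (1 / 2 * (cR * Real.log n)) ^ 2 :=
            div_le_div_of_nonneg_left (by positivity) (by positivity) h6
        _ = 4 / cR * (d n / (n * Real.log n)) := by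
            field_simp
            ring
    · calc d n / (n * Real.log n) = 9 * cR / 4 * (cR * Real.log n / n * d n / (3 / 2 * (cR * Real.log n)) ^ 2) := by
            field_simp
            ring
        _ ≤ 9 * cR / 4 * (cR * Real.log n / n * d n / mass {n | n.Prime} rate n ^ 2) := by
            apply mul_le_mul_of_nonneg_left _ (by positivity)
            exact div_le_div_of_nonneg_left (by positivity) (by positivity) h7
  constructor
  · intro h
    refine Summable.of_norm_bounded_eventually_nat (h.mul_left (9 * cR / 4)) ?_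
    filter_upwards [key, log_tendsto.eventually_gt_atTop 0] with n h1 h2
    by_cases hp : n.Prime
    · have h3 := hd n
      rw [if_pos hp, if_pos hp, Real.norm_eq_abs, abs_of_nonneg (by positivity)]
      exact h1.2
    · rw [if_neg hp, if_neg hp, norm_zero, mul_zero]
  · intro h
    refine Summable.of_norm_bounded_eventually_nat (h.mul_left (4 / cR)) ?_
    filter_upwards [key, log_tendsto.eventually_gt_atTop 0] with n h1 h2
    by_cases hp : n.Prime
    · have h3 := rates.pos n hp
      have h4 := hd n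
      rw [if_pos hp, if_pos hp, Real.norm_eq_abs, abs_of_nonneg (by positivity)]
      exact h1.1
    · rw [if_neg hp, if_neg hp, norm_zero, mul_zero]

/-- **(1)** -/
theorem law_iff (J : MEJobs) {d : ℕ → ℝ} (hm : Monotone d) (hd : ∀ n, 0 ≤ d n) :
    (∀ (Ω : Type) [MeasurableSpace Ω] (μ : Measure Ω) [IsProbabilityMeasure μ] (A : Ω → Set ℕ), IsRandomSet A →
      (∀ᶠ x : ℕ in atTop, D μ A x ≤ d x) → ∀ᵐ ω ∂μ, Tendsto (fun x : ℕ => (M (A ω) x : ℝ) / Real.log x) atTop (𝓝 cR)) ↔
    Summable (fun n : ℕ => if n.Prime then d n / (n * Real.log n) else 0) := by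
  rw [← conv_iff J hd]
  constructor
  · intro h
    by_contra hns
    obtain ⟨Ω, m, μ, hμ, A, hA, h1, h2⟩ := J.asl {n | n.Prime} rate d rates hm hd hns
    obtain ⟨ω, h3, h4⟩ := ((h Ω μ A hA h1).and h2).exists
    apply h4
    rw [tendsto_iff J, mul_one]
    exact h3
  · intro h Ω _ μ _ A hA hD
    filter_upwards [J.asu {n | n.Prime} rate d rates hm hd h Ω μ A hA hD] with ω hω
    have h1 := (tendsto_iff J _ _).1 hω
    rwa [mul_one] at h1

theorem scale (u : ℝ) : u * Real.log (u / cR) - u + cR = cR * hfun (u / cR) := by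
  unfold hfun
  have := cR_pos
  field_simp

theorem lint_scale (ν : Measure ℝ) (δ : ℝ) (hδ : 0 ≤ δ) :
    ∫⁻ u, ENNReal.ofReal (u * Real.log (u / cR) - u + cR) ∂ν ≤ ENNReal.ofReal δ ↔
      ∫⁻ u, ENNReal.ofReal (hfun u) ∂(ν.map (fun u => u / cR)) ≤ ENNReal.ofReal (δ / cR) := by
  have hc := cR_pos
  have hmeas : Measurable (fun u : ℝ => ENNReal.ofReal (hfun u)) := by
    unfold hfun
    fun_prop
  rw [lintegral_map hmeas (by fun_prop)]
  have h1 : (fun u : ℝ => ENNReal.ofReal (u * Real.log (u / cR) - u + cR)) =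
      fun u => ENNReal.ofReal cR * ENNReal.ofReal (hfun (u / cR)) := by
    funext u
    rw [scale, ENNReal.ofReal_mul hc.le]
  have hmeas2 : Measurable (fun u : ℝ => ENNReal.ofReal (hfun (u / cR))) := hmeas.comp (measurable_id.div_const cR)
  rw [h1, lintegral_const_mul _ hmeas2, ENNReal.ofReal_div_of_pos hc,
    ENNReal.le_div_iff_mul_le (Or.inl (by simpa using hc)) (Or.inl ENNReal.ofReal_ne_top), mul_comm]

/-- **(2)** -/
theorem laws_iff (J : MEJobs) {δ : ℝ} (hδ : 0 ≤ δ) (ν : Measure ℝ) [IsProbabilityMeasure ν] :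
    (∃ (Ω : Type) (_ : MeasurableSpace Ω) (μ : Measure Ω) (_ : IsProbabilityMeasure μ) (A : Ω → Set ℕ) (L : Ω → ℝ), Cls δ μ A ∧
      Measurable L ∧ μ.map L = ν ∧ ∀ᵐ ω ∂μ, Tendsto (fun x : ℕ => (M (A ω) x : ℝ) / Real.log x) atTop (𝓝 (L ω))) ↔
    ν (Set.Iio 0) = 0 ∧ ∫⁻ u, ENNReal.ofReal (u * Real.log (u / cR) - u + cR) ∂ν ≤ ENNReal.ofReal δ := by
  have hc := cR_pos
  constructor
  · rintro ⟨Ω, m, μ, hμ, A, L, ⟨hA, hcls⟩, hL, hmap, hlim⟩
    constructor
    · rw [← hmap, Measure.map_apply hL measurableSet_Iio]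
      have h1 : ∀ᵐ ω ∂μ, 0 ≤ L ω := by
        filter_upwards [hlim] with ω hω
        refine ge_of_tendsto hω ?_
        filter_upwards [log_tendsto.eventually_gt_atTop 0] with x hx
        positivity
      rw [ae_iff] at h1
      exact measure_mono_null (fun ω hω => not_le.2 hω) h1
    · rw [lint_scale ν δ hδ, ← hmap, Measure.map_map (by fun_prop) hL]
      have h1 := J.upl {n | n.Prime} rate (δ / cR) rates (by positivity) Ω μ A hA ((cls_iff J hδ).2 hcls) (fun ω => L ω / cR)
        (hL.div_const _) (by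
          filter_upwards [hlim] with ω hω
          rw [tendsto_iff J, mul_div_cancel₀ _ hc.ne']
          exact hω)
      rw [lintegral_map (by
        unfold hfun
        fun_prop) (by fun_prop)]
      exact h1
  · rintro ⟨h0, h1⟩
    rw [lint_scale ν δ hδ] at h1
    have : IsProbabilityMeasure (ν.map (fun u => u / cR)) := Measure.isProbabilityMeasure_map (by fun_prop)
    obtain ⟨Ω, m, μ, hμ, A, L, hA, hL, hmap, hcls, hlim, -⟩ := J.low {n | n.Prime} rate (δ / cR) rates (by positivity)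
      (ν.map (fun u => u / cR)) (by
        rw [Measure.map_apply (by fun_prop) measurableSet_Iio]
        refine measure_mono_null (fun u hu => ?_) h0
        have h2 : u / cR < 0 := hu
        rw [div_lt_iff₀ hc, zero_mul] at h2
        exact h2) h1
    refine ⟨Ω, m, μ, hμ, A, fun ω => cR * L ω, ⟨hA, (cls_iff J hδ).1 hcls⟩, hL.const_mul _, ?_, ?_⟩
    · have h2 : μ.map (fun ω => cR * L ω) = (μ.map L).map (fun v => cR * v) := (Measure.map_map (by fun_prop) hL).symm
      rw [h2, hmap, Measure.map_map (by fun_prop) (by fun_prop)]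
      have h3 : (fun v => cR * v) ∘ (fun u => u / cR) = id := by
        funext u
        simp only [Function.comp, id]
        field_simp
      rw [h3, Measure.map_id]
    · filter_upwards [hlim] with ω hω
      exact (tendsto_iff J _ _).1 hω

theorem finite_iff (S : Set ℕ) : (S ∩ {n | n.Prime}).Finite ↔ ∃ N : ℕ, ∀ n ∈ S, n ∈ {n : ℕ | n.Prime} → n < N := by
  constructor
  · intro h
    obtain ⟨N, hN⟩ := h.bddAbove
    exact ⟨N + 1, fun n h1 h2 => Nat.lt_succ_of_le (hN ⟨h1, h2⟩)⟩
  · rintro ⟨N, hN⟩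
    exact (Set.finite_lt_nat N).subset (fun n hn => hN n hn.1 hn.2)

/-- **(3)** -/
theorem fin_max (J : MEJobs) {δ : ℝ} (hδ : 0 ≤ δ) :
    (∀ (Ω : Type) [MeasurableSpace Ω] (μ : Measure Ω) [IsProbabilityMeasure μ] (A : Ω → Set ℕ), Cls δ μ A →
      μ.real {ω | (A ω ∩ {n | n.Prime}).Finite} ≤ δ / cR) ∧
    ∃ (Ω : Type) (_ : MeasurableSpace Ω) (μ : Measure Ω) (_ : IsProbabilityMeasure μ) (A : Ω → Set ℕ), Cls δ μ A ∧
      μ.real {ω | (A ω ∩ {n | n.Prime}).Finite} = min 1 (δ / cR) := by
  have hc := cR_pos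
  have hup : ∀ (Ω : Type) [MeasurableSpace Ω] (μ : Measure Ω) [IsProbabilityMeasure μ] (A : Ω → Set ℕ), Cls δ μ A →
      μ.real {ω | (A ω ∩ {n | n.Prime}).Finite} ≤ δ / cR := by
    intro Ω _ μ _ A hA
    simp only [finite_iff]
    exact J.fin {n | n.Prime} rate (δ / cR) rates (by positivity) Ω μ A hA.1 ((cls_iff J hδ).2 hA.2)
  refine ⟨hup, ?_⟩
  obtain ⟨t, ht⟩ : ∃ t : ℝ, t = min 1 (δ / cR) := ⟨_, rfl⟩
  have ht0 : 0 ≤ t := by
    rw [ht]
    exact le_min zero_le_one (by positivity)
  have ht1 : t ≤ 1 := by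
    rw [ht]
    exact min_le_left _ _
  have ht2 : t ≤ δ / cR := by
    rw [ht]
    exact min_le_right _ _
  obtain ⟨ν, hν⟩ : ∃ ν : Measure ℝ, ν = ENNReal.ofReal t • Measure.dirac 0 + ENNReal.ofReal (1 - t) • Measure.dirac 1 := ⟨_, rfl⟩
  have : IsProbabilityMeasure ν := ⟨by
    rw [hν]
    simp only [Measure.coe_add, Measure.coe_smul, Pi.add_apply, Pi.smul_apply, measure_univ, smul_eq_mul, mul_one]
    rw [← ENNReal.ofReal_add ht0 (by linarith)]
    simp⟩
  obtain ⟨Ω, m, μ, hμ, A, L, hA, hL, hmap, hcls, hlim, hfin⟩ := J.low {n | n.Prime} rate (δ / cR) rates (by positivity) ν (by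
    rw [hν]
    simp) (by
    rw [hν, lintegral_add_measure, lintegral_smul_measure, lintegral_smul_measure, lintegral_dirac, lintegral_dirac]
    have h1 : hfun 0 = 1 := by simp [hfun]
    have h2 : hfun 1 = 0 := by simp [hfun]
    rw [h1, h2]
    simp only [ENNReal.ofReal_one, ENNReal.ofReal_zero, smul_eq_mul, mul_one, mul_zero, add_zero]
    exact ENNReal.ofReal_le_ofReal ht2)
  have hAc : Cls δ μ A := ⟨hA, (cls_iff J hδ).1 hcls⟩
  refine ⟨Ω, m, μ, hμ, A, hAc, le_antisymm (le_min ?_ (hup Ω μ A hAc)) ?_⟩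
  · exact measureReal_le_one
  · rw [← ht]
    have h1 : μ.real (L ⁻¹' {0}) = t := by
      rw [measureReal_def, ← Measure.map_apply hL (measurableSet_singleton 0), hmap, hν]
      simp [ht0]
    rw [← h1]
    refine ENNReal.toReal_mono (measure_ne_top _ _) (measure_mono_ae ?_)
    filter_upwards [hfin] with ω hω h2
    exact (finite_iff (A ω)).2 (hω h2)


/-- The probability of finiteness, from the relative entropy along a sequence. -/
theorem fin_freq {t : ℝ} (Ω : Type) [MeasurableSpace Ω] (μ : Measure Ω) [IsProbabilityMeasure μ] (A : Ω → Set ℕ)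
    (hA : IsRandomSet A) (hD : ∀ ε : ℝ, 0 < ε → ∃ᶠ x : ℕ in atTop, D μ A x ≤ (cR * t + ε) * Real.log x) :
    μ.real {ω | (A ω ∩ {n | n.Prime}).Finite} ≤ t := by
  classical
  have hc := cR_pos
  have hEVT : J_EVT := Pool.Agent.Q184.ME.t_EVT Pool.Agent.Q26.ME.t_DV
  have hN : ∀ N : ℕ, μ.real {ω | ∀ n ∈ A ω, n ∈ {n : ℕ | n.Prime} → n < N} ≤ t := by
    intro N
    by_contra hlt
    push Not at hlt
    obtain ⟨P, hP⟩ : ∃ P : ℝ, P = μ.real {ω | ∀ n ∈ A ω, n ∈ {n : ℕ | n.Prime} → n < N} := ⟨_, rfl⟩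
    rw [← hP] at hlt
    have hP0 : 0 ≤ P := by
      rw [hP]
      exact measureReal_nonneg
    have hP1 : P ≤ 1 := by
      rw [hP]
      exact measureReal_le_one
    obtain ⟨ε, hε⟩ : ∃ ε : ℝ, ε = cR * (P - t) / 4 := ⟨_, rfl⟩
    have hε0 : 0 < ε := by
      rw [hε]
      have : 0 < P - t := by linarith
      positivity
    obtain ⟨η, hη⟩ : ∃ η : ℝ, η = (P - t) / 4 := ⟨_, rfl⟩
    have hη0 : 0 < η := by
      rw [hη]
      linarith
    have hbig : ∀ᶠ x : ℕ in atTop, (P * mass {n | n.Prime} rate N + Real.log 2) / ε < Real.log x :=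
      log_tendsto.eventually_gt_atTop _
    obtain ⟨x, hx1, hx2, hx3, hx4, hx5⟩ := ((hD ε hε0).and_eventually (hbig.and ((eventually_ge_atTop N).and
      ((mass_bounds jobs hη0).and (log_tendsto.eventually_gt_atTop 0))))).exists
    have hF : ∀ n ∈ ind {n : ℕ | n.Prime} x, 0 < rate n ∧ rate n < 1 := fun n hn =>
      ⟨rates.pos n (Pool.Agent.Q24.ME.mem_ind.1 hn).2, rates.lt_one n (Pool.Agent.Q24.ME.mem_ind.1 hn).2⟩
    have h1 := (hEVT rate (ind {n : ℕ | n.Prime} x) hF Ω μ A hA).2 (fun T => ∀ n ∈ T, n < N)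
      (mass {n | n.Prime} rate x - mass {n | n.Prime} rate N) (by
        rw [Pool.Agent.Q24.ME.sum_bern_below, ← Pool.Agent.Q24.ME.mass_sub {n : ℕ | n.Prime} rate hx3]
        exact Pool.Agent.Q24.ME.prod_below_le rate _ N (fun n hn => (hF n hn).2))
    have h2 : P ≤ μ.real {ω | ∀ n ∈ tr A (ind {n : ℕ | n.Prime} x) ω, n < N} := by
      rw [hP]
      refine measureReal_mono ?_
      intro ω hω n hn
      rw [mem_tr, Pool.Agent.Q24.ME.mem_ind] at hn
      exact hω n hn.2 hn.1.2
    have h3 : 0 ≤ mass {n | n.Prime} rate x - mass {n | n.Prime} rate N := by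
      rw [← Pool.Agent.Q24.ME.mass_sub {n : ℕ | n.Prime} rate hx3]
      exact Finset.sum_nonneg (fun n hn => (hF n (mem_filter.1 hn).1).1.le)
    have h4 : P * (mass {n | n.Prime} rate x - mass {n | n.Prime} rate N) ≤ (cR * t + ε) * Real.log x + Real.log 2 := by
      have h5 := mul_le_mul_of_nonneg_right h2 h3
      unfold D at hx1
      linarith
    have h5 : P * mass {n | n.Prime} rate N + Real.log 2 < ε * Real.log x := by
      rw [div_lt_iff₀ hε0] at hx2
      linarith
    have h6 : P * ((1 - η) * (cR * Real.log x)) ≤ P * mass {n | n.Prime} rate x := mul_le_mul_of_nonneg_left hx4.1 hP0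
    have h7 : P * ((1 - η) * (cR * Real.log x)) < (cR * t + 2 * ε) * Real.log x := by linarith
    have h8 : P * (1 - η) * cR < cR * t + 2 * ε := by
      have h9 : (P * (1 - η) * cR) * Real.log x < (cR * t + 2 * ε) * Real.log x := by linarith
      exact lt_of_mul_lt_mul_right h9 hx5.le
    have h9 : P * η ≤ η := by nlinarith
    have h10 : cR * (P - P * η - t - (P - t) / 2) < 0 := by
      rw [hε] at h8
      linarith
    have h11 : P - P * η - t - (P - t) / 2 < 0 := by
      by_contra hge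
      push Not at hge
      have := mul_nonneg hc.le hge
      linarith
    rw [hη] at h9
    rw [hη] at h11
    linarith
  simp only [finite_iff]
  have h1 : {ω | ∃ N : ℕ, ∀ n ∈ A ω, n ∈ {n : ℕ | n.Prime} → n < N} = ⋃ N : ℕ, {ω | ∀ n ∈ A ω, n ∈ {n : ℕ | n.Prime} → n < N} := by
    ext ω
    simp
  have hmono : Monotone (fun N : ℕ => {ω | ∀ n ∈ A ω, n ∈ {n : ℕ | n.Prime} → n < N}) := by
    intro N M hNM ω hω n hn hU
    exact lt_of_lt_of_le (hω n hn hU) hNM
  have h2 := tendsto_measure_iUnion_atTop (μ := μ) hmono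
  have h3 : Tendsto (fun N : ℕ => μ.real {ω | ∀ n ∈ A ω, n ∈ {n : ℕ | n.Prime} → n < N}) atTop
      (𝓝 (μ.real (⋃ N : ℕ, {ω | ∀ n ∈ A ω, n ∈ {n : ℕ | n.Prime} → n < N}))) := by
    have := (ENNReal.tendsto_toReal (measure_ne_top μ (⋃ N : ℕ, {ω | ∀ n ∈ A ω, n ∈ {n : ℕ | n.Prime} → n < N}))).comp h2
    exact this
  rw [h1]
  exact le_of_tendsto' h3 hN

/-- **The exact information threshold for infinitude.** -/
theorem threshold (d : ℕ → ℝ) {t : ℝ} (ht : 0 ≤ t) (ht1 : t < 1) :
    (∀ (Ω : Type) [MeasurableSpace Ω] (μ : Measure Ω) [IsProbabilityMeasure μ] (A : Ω → Set ℕ), IsRandomSet A →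
      (∀ᶠ x : ℕ in atTop, D μ A x ≤ d x) → μ.real {ω | (A ω ∩ {n | n.Prime}).Finite} ≤ t) ↔
    ∀ ε : ℝ, 0 < ε → ∃ᶠ x : ℕ in atTop, d x ≤ (cR * t + ε) * Real.log x := by
  have hc := cR_pos
  constructor
  · intro h
    by_contra hne
    push Not at hne
    obtain ⟨ε, hε, hev⟩ := hne
    obtain ⟨s, hs⟩ : ∃ s : ℝ, s = min ((1 + t) / 2) (t + ε / (2 * cR)) := ⟨_, rfl⟩
    have hε2 : 0 < ε / (2 * cR) := by positivity
    have hts : t < s := by
      rw [hs]
      exact lt_min (by linarith) (by linarith)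
    have hs1 : s < 1 := by
      rw [hs]
      exact (min_le_left _ _).trans_lt (by linarith)
    have hs2 : cR * s ≤ cR * t + ε / 2 := by
      have h1 : s ≤ t + ε / (2 * cR) := by
        rw [hs]
        exact min_le_right _ _
      have h2 := mul_le_mul_of_nonneg_left h1 hc.le
      have h3 : cR * (t + ε / (2 * cR)) = cR * t + ε / 2 := by
        field_simp
      linarith
    have hs0 : 0 ≤ s := by linarith
    obtain ⟨-, Ω, m, μ, hμ, A, hA, hfin⟩ := fin_max jobs (δ := cR * s) (by positivity)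
    have h1 : ∀ᶠ x : ℕ in atTop, D μ A x ≤ d x := by
      filter_upwards [hA.2 (ε / 2) (by positivity), hev, log_tendsto.eventually_gt_atTop 0] with x h2 h3 h4
      refine h2.trans (le_trans ?_ h3.le)
      apply mul_le_mul_of_nonneg_right _ h4.le
      linarith
    have h2 := h Ω μ A hA.1 h1
    rw [hfin, mul_div_cancel_left₀ _ hc.ne', min_eq_right hs1.le] at h2
    linarith
  · intro h Ω _ μ _ A hA hD
    refine fin_freq Ω μ A hA (fun ε hε => ?_)
    exact ((h ε hε).and_eventually hD).mono (fun x hx => hx.2.trans hx.1)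

/-- **The theorem.** -/
theorem main :
    (∀ d : ℕ → ℝ, ∀ t : ℝ, 0 ≤ t → t < 1 →
      ((∀ (Ω : Type) [MeasurableSpace Ω] (μ : Measure Ω) [IsProbabilityMeasure μ] (A : Ω → Set ℕ), IsRandomSet A →
        (∀ᶠ x : ℕ in atTop, D μ A x ≤ d x) → μ.real {ω | (A ω ∩ {n | n.Prime}).Finite} ≤ t) ↔
      ∀ ε : ℝ, 0 < ε → ∃ᶠ x : ℕ in atTop, d x ≤ (cR * t + ε) * Real.log x)) ∧
    (∀ d : ℕ → ℝ, Monotone d → (∀ n, 0 ≤ d n) →
      ((∀ (Ω : Type) [MeasurableSpace Ω] (μ : Measure Ω) [IsProbabilityMeasure μ] (A : Ω → Set ℕ), IsRandomSet A →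
        (∀ᶠ x : ℕ in atTop, D μ A x ≤ d x) → ∀ᵐ ω ∂μ, Tendsto (fun x : ℕ => (M (A ω) x : ℝ) / Real.log x) atTop (𝓝 cR)) ↔
      Summable (fun n : ℕ => if n.Prime then d n / (n * Real.log n) else 0))) ∧
    ∀ δ : ℝ, 0 ≤ δ → ∀ ν : Measure ℝ, IsProbabilityMeasure ν →
        ((∃ (Ω : Type) (_ : MeasurableSpace Ω) (μ : Measure Ω) (_ : IsProbabilityMeasure μ) (A : Ω → Set ℕ) (L : Ω → ℝ), Cls δ μ A ∧
          Measurable L ∧ μ.map L = ν ∧ ∀ᵐ ω ∂μ, Tendsto (fun x : ℕ => (M (A ω) x : ℝ) / Real.log x) atTop (𝓝 (L ω))) ↔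
        ν (Set.Iio 0) = 0 ∧ ∫⁻ u, ENNReal.ofReal (u * Real.log (u / cR) - u + cR) ∂ν ≤ ENNReal.ofReal δ) :=
  ⟨fun d _ ht ht1 => threshold d ht ht1, fun _ hm hd => law_iff jobs hm hd, fun _ hδ ν _ => laws_iff jobs hδ ν⟩

end Pool.Agent.Q83.RI
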